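import Pool.Agent.N167.DY.Stm

/-! DY/5: comparison of two nonnegative solutions (project DY of helper167). -/

namespace Pool.Agent.N861.DY

open Set Pool.Agent.N167.DY

lemma kk_nonneg (β : ℝ) (n : ℕ) : 0 ≤ kk β n := Real.rpow_nonneg (by norm_num) _

/-- the algebraic inequality -/
lemma alg (β ν : ℝ) (f X Z : ℕ → ℝ) (hν : 0 ≤ ν) (N : ℕ)
    (h : ∀ n, n ≤ N + 1 → 0 ≤ X n ∧ 0 ≤ Z n) :
    ∑ n ∈ Finset.range (N + 1), (2 : ℝ)⁻¹ ^ n * (2 * (X n - Z n) *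
      (rhs β ν f X n - rhs β ν f Z n)) ≤
    -((2 : ℝ)⁻¹ ^ N * kk β N * (2 * (X N - Z N) * (X N * X (N + 1) - Z N * Z (N + 1)))) := by
  induction N with
  | zero =>
    rw [zero_add, Finset.sum_range_one]
    simp only [rhs, inflow, pow_zero]
    have h1 : 0 ≤ ν * (X 0 - Z 0) ^ 2 := by positivity
    nlinarith
  | succ N ih =>
    rw [Finset.sum_range_succ]
    have h1 := ih fun n hn => h n (by omega)
    obtain ⟨hX1, hZ1⟩ := h (N + 1) (by omega)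
    have hk := kk_nonneg β N
    have hp : (0 : ℝ) ≤ (2 : ℝ)⁻¹ ^ N := by positivity
    have h2 : 0 ≤ (2 : ℝ)⁻¹ ^ N * kk β N * ((X N - Z N) ^ 2 * (X (N + 1) + Z (N + 1))) :=
      mul_nonneg (mul_nonneg hp hk) (mul_nonneg (sq_nonneg _) (by linarith))
    have h3 : 0 ≤ (2 : ℝ)⁻¹ ^ N * (ν * 4 ^ (N + 1) * (X (N + 1) - Z (N + 1)) ^ 2) := by positivity
    have e : (2 : ℝ)⁻¹ ^ (N + 1) * (2 * (X (N + 1) - Z (N + 1)) *
        (rhs β ν f X (N + 1) - rhs β ν f Z (N + 1))) =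
        (2 : ℝ)⁻¹ ^ N * kk β N * ((X (N + 1) - Z (N + 1)) * (X N ^ 2 - Z N ^ 2)) -
        (2 : ℝ)⁻¹ ^ N * (ν * 4 ^ (N + 1) * (X (N + 1) - Z (N + 1)) ^ 2) -
        (2 : ℝ)⁻¹ ^ (N + 1) * kk β (N + 1) * (2 * (X (N + 1) - Z (N + 1)) *
          (X (N + 1) * X (N + 1 + 1) - Z (N + 1) * Z (N + 1 + 1))) := by
      simp only [rhs, inflow]
      rw [pow_succ (2 : ℝ)⁻¹ N]
      ring
    have e2 : (2 : ℝ)⁻¹ ^ N * kk β N * ((X (N + 1) - Z (N + 1)) * (X N ^ 2 - Z N ^ 2)) -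
        (2 : ℝ)⁻¹ ^ N * kk β N * (2 * (X N - Z N) * (X N * X (N + 1) - Z N * Z (N + 1))) =
        -((2 : ℝ)⁻¹ ^ N * kk β N * ((X N - Z N) ^ 2 * (X (N + 1) + Z (N + 1)))) := by ring
    rw [e]
    linarith

lemma last {x z x' z' : ℝ} (hx : 0 ≤ x') (hz : 0 ≤ z') :
    -((x - z) * (x * x' - z * z')) ≤ x * z * (x' + z') := by
  nlinarith [mul_nonneg (sq_nonneg x) hx, mul_nonneg (sq_nonneg z) hz]

theorem psi : S_psi := by
  intro β ν f N T η X Z hν hT hX hZ hnn h0 hη t ht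
  set P : ℝ → ℝ := fun t => ∑ n ∈ Finset.range (N + 1), (2 : ℝ)⁻¹ ^ n * (X n t - Z n t) ^ 2 with hP
  set P' : ℝ → ℝ := fun t => ∑ n ∈ Finset.range (N + 1), (2 : ℝ)⁻¹ ^ n * (2 * (X n t - Z n t) *
    (rhs β ν (fun m => f m t) (fun m => X m t) n - rhs β ν (fun m => f m t) (fun m => Z m t) n))
    with hP'
  have hd : ∀ s ∈ Icc (0 : ℝ) T, HasDerivWithinAt P (P' s) (Icc 0 T) s := by
    intro s hs
    refine HasDerivWithinAt.fun_sum fun n hn => ?_
    have hn' : n ≤ N := Nat.lt_succ_iff.1 (Finset.mem_range.1 hn)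
    have h1 := ((hX n hn' s hs).sub (hZ n hn' s hs)).pow 2
    have h2 := h1.const_mul ((2 : ℝ)⁻¹ ^ n)
    refine h2.congr_deriv ?_
    simp only [Pi.sub_apply]
    norm_num
  have hle : ∀ s ∈ Icc (0 : ℝ) T, P' s ≤ 2 * η := by
    intro s hs
    have h1 := alg β ν (fun m => f m s) (fun m => X m s) (fun m => Z m s) hν N
      (fun n hn => hnn n hn s hs)
    have h2 := last (x := X N s) (z := Z N s) (hnn (N + 1) le_rfl s hs).1 (hnn (N + 1) le_rfl s hs).2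
    have h3 := hη s hs
    have h4 : (0 : ℝ) ≤ (2 : ℝ)⁻¹ ^ N * kk β N := mul_nonneg (by positivity) (kk_nonneg β N)
    have h5 := mul_le_mul_of_nonneg_left h2 h4
    refine h1.trans ?_
    nlinarith
  have hg : ∀ s ∈ Icc (0 : ℝ) T,
      HasDerivWithinAt (fun s => 2 * η * s - P s) (2 * η - P' s) (Icc 0 T) s := by
    intro s hs
    have h1 : HasDerivWithinAt (fun s : ℝ => 2 * η * s) (2 * η) (Icc 0 T) s := by
      simpa using (hasDerivWithinAt_id s (Icc 0 T)).const_mul (2 * η)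
    exact h1.sub (hd s hs)
  have hmono : MonotoneOn (fun s => 2 * η * s - P s) (Icc 0 T) := by
    refine monotoneOn_of_deriv_nonneg (convex_Icc 0 T) (fun s hs => (hg s hs).continuousWithinAt)
      ?_ ?_
    · rw [interior_Icc]
      intro s hs
      exact ((hg s (Ioo_subset_Icc_self hs)).hasDerivAt (Icc_mem_nhds hs.1 hs.2)).differentiableAt.differentiableWithinAt
    · rw [interior_Icc]
      intro s hs
      rw [((hg s (Ioo_subset_Icc_self hs)).hasDerivAt (Icc_mem_nhds hs.1 hs.2)).deriv]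
      linarith [hle s (Ioo_subset_Icc_self hs)]
  have h1 := hmono (left_mem_Icc.2 hT) ht ht.1
  have h2 : P 0 = 0 := by
    refine Finset.sum_eq_zero fun n hn => ?_
    rw [h0 n (Nat.lt_succ_iff.1 (Finset.mem_range.1 hn))]
    simp
  simp only [mul_zero, h2, sub_self] at h1
  have h3 : P t ≤ 2 * η * t := by linarith
  exact h3

end Pool.Agent.N861.DY
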